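import Pool.Agent.Helper4.BT.Defs
import Pool.Agent.Helper17.BT.Kernel

/-! Block BT-KER3 (helper26): the self interaction vanishes. -/

set_option autoImplicit false

namespace Pool.Helper4.BT

open MeasureTheory Metric Set InnerProductSpace

namespace KER3

/-- the product of a bounded compactly supported function with a kernel `O(|x - y|^{-5})` is
integrable on the product -/
lemma integrable_prod {f : E → ℝ} (hf : Continuous f) (hc : HasCompactSupport f) {k : E → E → ℝ}
    (hk : Measurable (Function.uncurry k)) (C : ℝ)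
    (hC : ∀ x y, f x ≠ 0 → f y ≠ 0 → |k x y| ≤ C * (‖x - y‖ ^ 5)⁻¹) :
    Integrable (fun p : E × E => f p.1 * (k p.1 p.2 * f p.2)) (volume.prod volume) := by
  obtain ⟨R, hR⟩ : ∃ R : ℝ, ∀ x, f x ≠ 0 → ‖x‖ < R := by
    obtain ⟨R, hR⟩ := hc.isCompact.isBounded.subset_ball (0 : E)
    refine ⟨R, fun x hx => ?_⟩
    have := hR (subset_tsupport f hx)
    rwa [mem_ball_zero_iff] at this
  obtain ⟨M, hM⟩ := hc.exists_bound_of_continuous hf
  have hM0 : 0 ≤ M := (norm_nonneg _).trans (hM 0)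
  let g : E → ℝ := indicator (ball 0 (2 * R)) fun z => (‖z‖ ^ 5)⁻¹
  have hg : Integrable g := by
    rw [integrable_indicator_iff measurableSet_ball]
    exact KER.integrableOn_inv_pow 5 le_rfl (2 * R)
  have hfi : Integrable f := hf.integrable_of_hasCompactSupport hc
  have h1 : Integrable (fun p : E × E => (ContinuousLinearMap.mul ℝ ℝ) (|f p.2|) (g (p.1 - p.2)))
      (volume.prod volume) :=
    MeasureTheory.Integrable.convolution_integrand (ContinuousLinearMap.mul ℝ ℝ) hfi.abs hg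
  have h2 : Integrable (fun p : E × E => (M * |C|) * (|f p.2| * g (p.1 - p.2)))
      (volume.prod volume) := h1.const_mul (M * |C|)
  refine h2.mono' ?_ ?_
  · have hfm : Measurable f := hf.measurable
    exact ((hfm.comp measurable_fst).mul (hk.mul (hfm.comp measurable_snd))).aestronglyMeasurable
  · refine Filter.Eventually.of_forall fun p => ?_
    have hgn : 0 ≤ g (p.1 - p.2) := indicator_nonneg (fun z _ => by positivity) _
    by_cases hx : f p.1 = 0
    · rw [hx, zero_mul, norm_zero]; positivity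
    by_cases hy : f p.2 = 0
    · rw [hy, mul_zero, mul_zero, norm_zero]; positivity
    have hz : p.1 - p.2 ∈ ball (0 : E) (2 * R) := by
      rw [mem_ball_zero_iff]
      calc ‖p.1 - p.2‖ ≤ ‖p.1‖ + ‖p.2‖ := norm_sub_le _ _
        _ < R + R := add_lt_add (hR _ hx) (hR _ hy)
        _ = 2 * R := by ring
    have hgz : g (p.1 - p.2) = (‖p.1 - p.2‖ ^ 5)⁻¹ := indicator_of_mem hz _
    rw [hgz, norm_mul, norm_mul, Real.norm_eq_abs (k p.1 p.2), Real.norm_eq_abs (f p.2)]
    have h3 := hC p.1 p.2 hx hy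
    have h4 : C * (‖p.1 - p.2‖ ^ 5)⁻¹ ≤ |C| * (‖p.1 - p.2‖ ^ 5)⁻¹ :=
      mul_le_mul_of_nonneg_right (le_abs_self C) (by positivity)
    calc ‖f p.1‖ * (|k p.1 p.2| * |f p.2|)
        ≤ M * ((|C| * (‖p.1 - p.2‖ ^ 5)⁻¹) * |f p.2|) := by
          apply mul_le_mul (hM _) _ (by positivity) hM0
          exact mul_le_mul_of_nonneg_right (h3.trans h4) (abs_nonneg _)
      _ = M * |C| * (|f p.2| * (‖p.1 - p.2‖ ^ 5)⁻¹) := by ring

/-- an antisymmetric integrable function on the product has integral zero -/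
lemma integral_antisymm {F : E × E → ℝ} (h : ∀ p, F p.swap = -F p) :
    ∫ p, F p ∂((volume : Measure E).prod volume) = 0 := by
  have h1 := integral_prod_swap (μ := (volume : Measure E)) (ν := (volume : Measure E)) F
  have h2 : ∫ p : E × E, F p.swap ∂((volume : Measure E).prod volume) =
      -∫ p, F p ∂((volume : Measure E).prod volume) := by
    rw [← integral_neg]
    exact integral_congr_ae (Filter.Eventually.of_forall h)
  rw [h1] at h2
  linarith

lemma measurable_k1 (v : E → E) (hv : Measurable v) :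
    Measurable (Function.uncurry fun x y : E => -4 * cG * inner ℝ (x - y) (v x) / ‖x - y‖ ^ 6) := by
  have h1 : Measurable fun p : E × E => p.1 - p.2 := measurable_fst.sub measurable_snd
  have h2 : Measurable fun p : E × E => inner ℝ (p.1 - p.2) (v p.1) :=
    h1.inner (hv.comp measurable_fst)
  exact (h2.const_mul (-4 * cG)).div (h1.norm.pow_const 6)

lemma bound_k1 (x y v : E) :
    |-4 * cG * inner ℝ (x - y) v / ‖x - y‖ ^ 6| ≤ 4 * cG * ‖v‖ * (‖x - y‖ ^ 5)⁻¹ := by
  have hcG := cG_pos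
  by_cases h0 : ‖x - y‖ = 0
  · rw [h0]; simp
  have hpos : 0 < ‖x - y‖ := lt_of_le_of_ne (norm_nonneg _) (Ne.symm h0)
  rw [abs_div, abs_mul, abs_of_nonneg (by positivity : (0 : ℝ) ≤ ‖x - y‖ ^ 6)]
  have h1 : |-4 * cG| = 4 * cG := by rw [abs_of_neg (by linarith)]; ring
  rw [h1, div_le_iff₀ (by positivity)]
  have h2 := abs_real_inner_le_norm (x - y) v
  calc 4 * cG * |inner ℝ (x - y) v| ≤ 4 * cG * (‖x - y‖ * ‖v‖) :=
        mul_le_mul_of_nonneg_left h2 (by positivity)
    _ = 4 * cG * ‖v‖ * (‖x - y‖ ^ 5)⁻¹ * ‖x - y‖ ^ 6 := by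
        field_simp

end KER3

open KER3 in
theorem self_zero (f : E → ℝ) (hf : ContDiff ℝ 1 f) (hc : HasCompactSupport f) (c : E) :
    ∫ x, f x * (fderiv ℝ (N f) x (x - c) + 2 * N f x) = 0 := by
  have hcG := cG_pos
  have hfc := hf.continuous
  obtain ⟨R, hR0, hR⟩ : ∃ R : ℝ, 0 < R ∧ ∀ x, f x ≠ 0 → ‖x‖ < R := by
    obtain ⟨R, hR⟩ := hc.isCompact.isBounded.subset_ball (0 : E)
    refine ⟨max R 1, lt_max_of_lt_right one_pos, fun x hx => ?_⟩
    have := hR (subset_tsupport f hx)
    rw [mem_ball_zero_iff] at this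
    exact lt_max_of_lt_left this
  let k1 : E → E → ℝ := fun x y => -4 * cG * inner ℝ (x - y) (x - c) / ‖x - y‖ ^ 6
  let k2 : E → E → ℝ := fun x y => 2 * Gam (x - y)
  have hk1 : Measurable (Function.uncurry k1) := measurable_k1 (fun x => x - c) (measurable_id.sub_const c)
  have hk2 : Measurable (Function.uncurry k2) := by
    have h1 : Measurable fun p : E × E => p.1 - p.2 := measurable_fst.sub measurable_snd
    exact ((h1.norm.pow_const 4).inv.const_mul cG).const_mul 2
  have hI1 : Integrable (fun p : E × E => f p.1 * (k1 p.1 p.2 * f p.2)) (volume.prod volume) := by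
    refine integrable_prod hfc hc hk1 (4 * cG * (R + ‖c‖)) fun x y hx _ => ?_
    refine (bound_k1 x y (x - c)).trans ?_
    have h1 : ‖x - c‖ ≤ R + ‖c‖ := (norm_sub_le _ _).trans (by linarith [hR x hx])
    have h2 : 0 ≤ (‖x - y‖ ^ 5)⁻¹ := by positivity
    exact mul_le_mul_of_nonneg_right (mul_le_mul_of_nonneg_left h1 (by positivity)) h2
  have hI2 : Integrable (fun p : E × E => f p.1 * (k2 p.1 p.2 * f p.2)) (volume.prod volume) := by
    refine integrable_prod hfc hc hk2 (2 * cG * (2 * R)) fun x y hx hy => ?_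
    simp only [k2, Gam]
    by_cases h0 : ‖x - y‖ = 0
    · rw [h0]; simp
    have hpos : 0 < ‖x - y‖ := lt_of_le_of_ne (norm_nonneg _) (Ne.symm h0)
    rw [abs_of_nonneg (by positivity)]
    have h1 : ‖x - y‖ ≤ 2 * R := by
      have := norm_sub_le x y
      linarith [hR x hx, hR y hy]
    have h2 : (‖x - y‖ ^ 4)⁻¹ = ‖x - y‖ * (‖x - y‖ ^ 5)⁻¹ := by
      field_simp
    rw [h2]
    calc 2 * (cG * (‖x - y‖ * (‖x - y‖ ^ 5)⁻¹)) = 2 * cG * ‖x - y‖ * (‖x - y‖ ^ 5)⁻¹ := by ring
      _ ≤ 2 * cG * (2 * R) * (‖x - y‖ ^ 5)⁻¹ :=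
        mul_le_mul_of_nonneg_right (mul_le_mul_of_nonneg_left h1 (by positivity)) (by positivity)
  have h1 : ∀ x, f x * (fderiv ℝ (N f) x (x - c) + 2 * N f x) =
      (∫ y, f x * (k1 x y * f y)) + ∫ y, f x * (k2 x y * f y) := by
    intro x
    rw [integral_const_mul, integral_const_mul, fderiv_N f hf hc, ← mul_add]
    congr 2
    simp only [k2, N]
    rw [← integral_const_mul]
    exact integral_congr_ae (Filter.Eventually.of_forall fun y => by ring)
  simp_rw [h1]
  rw [integral_add hI1.integral_prod_left hI2.integral_prod_left, ← integral_prod _ hI1,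
    ← integral_prod _ hI2, ← integral_add hI1 hI2]
  apply integral_antisymm
  rintro ⟨x, y⟩
  simp only [Prod.swap, k1, k2, Gam]
  have h2 : ‖y - x‖ = ‖x - y‖ := norm_sub_rev y x
  rw [h2]
  have h3 : inner ℝ (y - x) (y - c) = -inner ℝ (x - y) (x - c) + ‖x - y‖ ^ 2 := by
    have h4 : y - x = -(x - y) := by abel
    have h5 : y - c = (x - c) - (x - y) := by abel
    rw [h4, h5, inner_neg_left, inner_sub_right, real_inner_self_eq_norm_sq]
    ring
  rw [h3]
  by_cases h0 : ‖x - y‖ = 0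
  · rw [h0]; simp
  field_simp
  ring

open KER3 in
theorem self_zero' (f : E → ℝ) (hf : ContDiff ℝ 1 f) (hc : HasCompactSupport f) (v : E) :
    ∫ x, f x * fderiv ℝ (N f) x v = 0 := by
  have hcG := cG_pos
  have hfc := hf.continuous
  let k1 : E → E → ℝ := fun x y => -4 * cG * inner ℝ (x - y) v / ‖x - y‖ ^ 6
  have hk1 : Measurable (Function.uncurry k1) := measurable_k1 (fun _ => v) measurable_const
  have hI1 : Integrable (fun p : E × E => f p.1 * (k1 p.1 p.2 * f p.2)) (volume.prod volume) :=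
    integrable_prod hfc hc hk1 (4 * cG * ‖v‖) fun x y _ _ => bound_k1 x y v
  have h1 : ∀ x, f x * fderiv ℝ (N f) x v = ∫ y, f x * (k1 x y * f y) := by
    intro x
    rw [integral_const_mul, fderiv_N f hf hc]
  simp_rw [h1]
  rw [← integral_prod _ hI1]
  apply integral_antisymm
  rintro ⟨x, y⟩
  simp only [Prod.swap, k1]
  have h2 : ‖y - x‖ = ‖x - y‖ := norm_sub_rev y x
  have h4 : y - x = -(x - y) := by abel
  rw [h2, h4, inner_neg_left]
  ring

end Pool.Helper4.BT
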